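import Mathlib
import Pool.Agent.N534.EC.Local
import Pool.Agent.N534.AS.Frob

set_option autoImplicit false

/-! # The bound of Hasse over the prime field -/

namespace Pool.Agent.N666.BC

open Polynomial Finset

/-- the number of points -/
theorem count_eq (p : ℕ) [hp : Fact p.Prime] (h2 : p ≠ 2) (A B : ℤ) :
    ((p : ℤ) - (Nat.card {P : ZMod p × ZMod p // P.2 ^ 2 = P.1 ^ 3 + A * P.1 + B} : ℕ) : ℤ) =
      - ∑ x : ZMod p, quadraticChar (ZMod p) ((X ^ 3 + C (A : ZMod p) * X + C (B : ZMod p) : (ZMod p)[X]).eval x) := by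
  classical
  have hk : ringChar (ZMod p) ≠ 2 := by rw [ZMod.ringChar_zmod_n]; exact h2
  have h1 : (Nat.card {P : ZMod p × ZMod p // P.2 ^ 2 = P.1 ^ 3 + A * P.1 + B} : ℕ) =
      ∑ x : ZMod p, ({y : ZMod p | y ^ 2 = x ^ 3 + A * x + B}.toFinset.card) := by
    rw [← Finset.card_sigma, Nat.card_eq_fintype_card, ← Fintype.card_coe]
    refine Fintype.card_congr ⟨fun P => ⟨⟨P.1.1, P.1.2⟩, by simpa using P.2⟩,
      fun P => ⟨(P.1.1, P.1.2), by simpa using P.2⟩, fun P => rfl, fun P => rfl⟩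
  rw [h1]
  push_cast
  have h3 : ∀ x : ZMod p, ((({y : ZMod p | y ^ 2 = x ^ 3 + A * x + B}.toFinset.card : ℕ)) : ℤ) =
      quadraticChar (ZMod p) ((X ^ 3 + C (A : ZMod p) * X + C (B : ZMod p) : (ZMod p)[X]).eval x) + 1 := by
    intro x
    rw [quadraticChar_card_sqrts hk]
    simp
  simp only [h3]
  rw [Finset.sum_add_distrib, Finset.sum_const, Finset.card_univ, ZMod.card]
  simp

theorem hasse (p : ℕ) [hp : Fact p.Prime] (h2 : p ≠ 2) (A B : ℤ) :
    |(((p : ℤ) - (Nat.card {P : ZMod p × ZMod p // P.2 ^ 2 = P.1 ^ 3 + A * P.1 + B} : ℕ) : ℤ) : ℝ)| ≤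
      2 * Real.sqrt p := by
  classical
  have hk : ringChar (ZMod p) ≠ 2 := by rw [ZMod.ringChar_zmod_n]; exact h2
  have hdeg : (X ^ 3 + C (A : ZMod p) * X + C (B : ZMod p) : (ZMod p)[X]).natDegree = 3 := by
    compute_degree!
  have h1 := Pool.Agent.H341R2.Sharp.weil_sharp hk (X ^ 3 + C (A : ZMod p) * X + C (B : ZMod p) : (ZMod p)[X])
    (by omega) (by
    intro c h hq
    rcases eq_or_ne c 0 with rfl | hc
    · rw [C_0, zero_mul] at hq
      rw [hq] at hdeg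
      simp at hdeg
    · have := congrArg natDegree hq
      rw [hdeg, natDegree_C_mul hc, natDegree_pow] at this
      omega)
  rw [count_eq p h2, hdeg, ZMod.card] at *
  push_cast
  rw [abs_neg]
  refine h1.trans (le_of_eq ?_)
  norm_num

/-- the power sums -/
theorem psum_le (p : ℕ) [hp : Fact p.Prime] (h2 : p ≠ 2) (A B : ℤ) (k : ℕ) :
    |Pool.Agent.N534.AS.ps ((p : ℤ) - (Nat.card {P : ZMod p × ZMod p // P.2 ^ 2 = P.1 ^ 3 + A * P.1 + B} : ℕ) : ℤ) p k| ≤
      2 * (p : ℝ) ^ ((k : ℝ) * (((1 : ℕ) : ℝ) / 2)) := by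
  have h1 := Pool.Agent.N534.AS.ps_le (hasse p h2 A B) k
  refine h1.trans (le_of_eq ?_)
  rw [Real.sqrt_eq_rpow, ← Real.rpow_natCast, ← Real.rpow_mul (by positivity)]
  congr 2
  push_cast
  ring

end Pool.Agent.N666.BC
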