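import Pool.Agent.N666.TM.RQ

set_option autoImplicit false

/-! # Base change to the fields of a family of polynomials: the local analysis -/

namespace Pool.Agent.N666.BC

open Polynomial Finset
open Pool.Agent.Y722.HS (EM red)
open Pool.Agent.N534.PS (Pow)

/-- the elements of a field containing `ZMod p` fixed by the Frobenius -/
theorem fixed {p : ℕ} [hp : Fact p.Prime] {K : Type*} [Field K] [Algebra (ZMod p) K] {z : K} (h : z ^ p = z) :
    ∃ x : ZMod p, algebraMap (ZMod p) K x = z := by
  classical
  set f : (ZMod p)[X] := X ^ Fintype.card (ZMod p) - X with hf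
  have hr : f.roots = Finset.univ.val := FiniteField.roots_X_pow_card_sub_X (ZMod p)
  have hcard : Fintype.card (ZMod p) = p := ZMod.card p
  have hdeg : f.natDegree = p := by
    rw [hf, FiniteField.X_pow_card_sub_X_natDegree_eq (ZMod p) (by rw [hcard]; exact hp.out.one_lt), hcard]
  have hmon : f.Monic := by
    rw [hf, hcard]
    exact monic_X_pow_sub (by rw [degree_X]; exact_mod_cast hp.out.one_lt)
  have hprod : (f.roots.map fun a => X - C a).prod = f := by
    apply prod_multiset_X_sub_C_of_monic_of_roots_card_eq hmon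
    rw [hr, hdeg]
    simp [hcard]
  have h0 : aeval z f = 0 := by
    rw [hf, hcard, map_sub, map_pow, aeval_X, h, sub_self]
  rw [← hprod, hr, aeval_def, eval₂_multiset_prod, Multiset.prod_eq_zero_iff] at h0
  simp only [Multiset.mem_map] at h0
  obtain ⟨g, ⟨a, -, rfl⟩, h1⟩ := h0
  rw [eval₂_sub, eval₂_X, eval₂_C, sub_eq_zero] at h1
  exact ⟨a, h1.symm⟩

open Classical in
/-- the number of the roots of `g` in the field with `p ^ k` elements -/
noncomputable def rc (p k : ℕ) (g : (ZMod p)[X]) : ℕ :=
  if hp : p.Prime then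
    haveI : Fact p.Prime := ⟨hp⟩
    Nat.card {z : AlgebraicClosure (ZMod p) // z ^ p ^ k = z ∧ aeval z g = 0}
  else 0

theorem rc_eq (p k : ℕ) [hp : Fact p.Prime] (g : (ZMod p)[X]) :
    rc p k g = Nat.card {z : AlgebraicClosure (ZMod p) // z ^ p ^ k = z ∧ aeval z g = 0} := by
  rw [rc, dif_pos hp.out]

theorem rc_le (p k : ℕ) [hp : Fact p.Prime] (g : (ZMod p)[X]) (hg : g ≠ 0) : rc p k g ≤ g.natDegree := by
  classical
  rw [rc_eq]
  set L := AlgebraicClosure (ZMod p)
  have h1 : {z : L | z ^ p ^ k = z ∧ aeval z g = 0} ⊆ ((g.map (algebraMap (ZMod p) L)).roots.toFinset : Set L) := by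
    intro z hz
    rw [Finset.mem_coe, Multiset.mem_toFinset, mem_roots', IsRoot.def, eval_map_algebraMap]
    exact ⟨(Polynomial.map_ne_zero_iff (algebraMap (ZMod p) L).injective).2 hg, hz.2⟩
  have h2 := Set.ncard_le_ncard h1 (Finset.finite_toSet _)
  rw [Set.ncard_coe_finset] at h2
  calc Nat.card {z : L // z ^ p ^ k = z ∧ aeval z g = 0} = {z : L | z ^ p ^ k = z ∧ aeval z g = 0}.ncard := rfl
    _ ≤ (g.map (algebraMap (ZMod p) L)).roots.toFinset.card := h2
    _ ≤ (g.map (algebraMap (ZMod p) L)).roots.card := Multiset.toFinset_card_le _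
    _ ≤ (g.map (algebraMap (ZMod p) L)).natDegree := card_roots' _
    _ = g.natDegree := natDegree_map _

theorem rc_one (p : ℕ) [hp : Fact p.Prime] (g : (ZMod p)[X]) :
    rc p 1 g = (univ.filter fun x : ZMod p => g.eval x = 0).card := by
  classical
  rw [rc_eq]
  set L := AlgebraicClosure (ZMod p)
  rw [← Fintype.card_subtype, ← Nat.card_eq_fintype_card]
  symm
  refine Nat.card_congr (Equiv.ofBijective (fun x : {x : ZMod p // g.eval x = 0} =>
    (⟨algebraMap (ZMod p) L x.1, ?_, ?_⟩ : {z : L // z ^ p ^ 1 = z ∧ aeval z g = 0})) ⟨?_, ?_⟩)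
  · rw [pow_one, ← map_pow, ZMod.pow_card]
  · rw [aeval_algebraMap_apply, coe_aeval_eq_eval, x.2, map_zero]
  · intro x y h
    have h1 := congrArg Subtype.val h
    exact Subtype.ext ((algebraMap (ZMod p) L).injective h1)
  · rintro ⟨z, h1, h2⟩
    rw [pow_one] at h1
    obtain ⟨x, hx⟩ := fixed h1
    refine ⟨⟨x, ?_⟩, Subtype.ext hx⟩
    rw [← hx, aeval_algebraMap_apply, coe_aeval_eq_eval] at h2
    exact (map_eq_zero_iff _ (algebraMap (ZMod p) L).injective).1 h2

section
variable {J : Type} [Fintype J] [DecidableEq J]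

/-- the reduction of the member for a residue class: the coordinate `none` is the additive parameter -/
noncomputable def gm (G : (MvPolynomial J ℤ)[X]) (p : ℕ) (r : Option J → ZMod p) : (ZMod p)[X] :=
  G.map (MvPolynomial.eval₂Hom (Int.castRingHom (ZMod p)) (fun j => r (some j))) + C (r none)

/-- the member of the family -/
noncomputable def mem (G : (MvPolynomial J ℤ)[X]) (c : Option J → ℤ) : ℤ[X] :=
  G.map (MvPolynomial.eval fun j => c (some j)) + C (c none)

omit [Fintype J] [DecidableEq J] in
theorem gm_red (G : (MvPolynomial J ℤ)[X]) (p : ℕ) (c : Option J → ℤ) :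
    gm G p (red p c) = (mem G c).map (Int.castRingHom (ZMod p)) := by
  unfold gm mem red
  rw [Polynomial.map_add, Polynomial.map_C, Polynomial.map_map]
  congr 2
  refine MvPolynomial.ringHom_ext (fun a => ?_) (fun i => ?_)
  · simp
  · simp

variable {G : (MvPolynomial J ℤ)[X]} (hG : G.Monic) (hd : 1 ≤ G.natDegree)
include hG hd

omit [Fintype J] [DecidableEq J] in
theorem gm_monic (p : ℕ) [hp : Fact p.Prime] (r : Option J → ZMod p) :
    (gm G p r).Monic ∧ (gm G p r).natDegree = G.natDegree := by
  have h1 := hG.map (MvPolynomial.eval₂Hom (Int.castRingHom (ZMod p)) (fun j => r (some j)))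
  have h2 : (G.map (MvPolynomial.eval₂Hom (Int.castRingHom (ZMod p)) (fun j => r (some j)))).natDegree =
      G.natDegree := hG.natDegree_map _
  have h3 : (C (r none)).degree <
      (G.map (MvPolynomial.eval₂Hom (Int.castRingHom (ZMod p)) (fun j => r (some j)))).degree := by
    rw [degree_eq_natDegree h1.ne_zero, h2]
    exact lt_of_le_of_lt degree_C_le (by exact_mod_cast hd)
  refine ⟨h1.add_of_left h3, ?_⟩
  unfold gm
  rw [natDegree_add_C, h2]

/-- the mean number of roots is one -/
theorem sum_rc (p : ℕ) [hp : Fact p.Prime] :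
    ∑ r : Option J → ZMod p, (rc p 1 (gm G p r) : ℝ) = (p : ℝ) ^ Fintype.card (Option J) := by
  classical
  have h1 : ∀ r : Option J → ZMod p, (rc p 1 (gm G p r) : ℝ) =
      ∑ x : ZMod p, if (gm G p r).eval x = 0 then (1 : ℝ) else 0 := by
    intro r
    rw [rc_one, Finset.natCast_card_filter]
  simp only [h1]
  rw [Finset.sum_comm]
  have h2 : ∀ x : ZMod p, ∑ r : Option J → ZMod p, (if (gm G p r).eval x = 0 then (1 : ℝ) else 0) =
      (p : ℝ) ^ Fintype.card J := by
    intro x
    rw [← Finset.natCast_card_filter]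
    have h3 : (univ.filter fun r : Option J → ZMod p => (gm G p r).eval x = 0).card =
        Fintype.card (J → ZMod p) := by
      rw [← Fintype.card_subtype]
      refine Fintype.card_congr ⟨fun r j => r.1 (some j), fun r => ⟨fun o => o.elim
        (-(G.map (MvPolynomial.eval₂Hom (Int.castRingHom (ZMod p)) r)).eval x) r, ?_⟩, ?_, ?_⟩
      · unfold gm
        simp
      · rintro ⟨r, hr⟩
        refine Subtype.ext (funext fun o => ?_)
        cases o with
        | none =>
          unfold gm at hr
          rw [eval_add, eval_C] at hr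
          simp only [Option.elim_none]
          exact neg_eq_of_add_eq_zero_right hr
        | some j => rfl
      · intro r
        rfl
    rw [h3, Fintype.card_fun, ZMod.card]
    push_cast
    rfl
  simp only [h2]
  rw [Finset.sum_const, Finset.card_univ, ZMod.card, nsmul_eq_mul, Fintype.card_option, pow_succ]
  ring

/-- the proportion of the inseparable members -/
theorem sum_bad (p : ℕ) [hp : Fact p.Prime] (hpd : G.natDegree < p) :
    ∑ r : Option J → ZMod p, (open Classical in if ¬ (gm G p r).Separable then (1 : ℝ) else 0) ≤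
      (G.natDegree : ℝ) * (p : ℝ) ^ Fintype.card J := by
  classical
  rw [← Finset.natCast_card_filter]
  set L := AlgebraicClosure (ZMod p)
  let H : (J → ZMod p) → (ZMod p)[X] := fun r =>
    G.map (MvPolynomial.eval₂Hom (Int.castRingHom (ZMod p)) r)
  have hH : ∀ r, (H r).Monic ∧ (H r).natDegree = G.natDegree := fun r => ⟨hG.map _, hG.natDegree_map _⟩
  -- the derivative is not zero
  have hH' : ∀ r, derivative (H r) ≠ 0 := by
    intro r h0
    have h1 := congrArg (fun q => q.coeff (G.natDegree - 1)) h0
    simp only [coeff_derivative, coeff_zero] at h1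
    have h2 : G.natDegree - 1 + 1 = G.natDegree := by omega
    have h3 : ((G.natDegree - 1 : ℕ) : ZMod p) + 1 = (G.natDegree : ZMod p) := by
      rw [← h2]; push_cast; simp
    have h4 : (H r).coeff (G.natDegree - 1 + 1) = 1 := by
      rw [h2, ← (hH r).2]
      exact (hH r).1.coeff_natDegree
    rw [h4, one_mul, h3, ZMod.natCast_eq_zero_iff] at h1
    exact absurd (Nat.le_of_dvd hd h1) (by omega)
  -- for given other parameters few values of the additive parameter are bad
  have key : ∀ r : J → ZMod p, (univ.filter fun c : ZMod p => ¬ (H r + C c).Separable).card ≤ G.natDegree := by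
    intro r
    have hD : derivative (H r) ≠ 0 := hH' r
    set R := ((derivative (H r)).map (algebraMap (ZMod p) L)).roots.toFinset with hR
    have h1 : ((univ.filter fun c : ZMod p => ¬ (H r + C c).Separable).image (algebraMap (ZMod p) L)) ⊆
        R.image (fun ξ => - aeval ξ (H r)) := by
      intro y hy
      rw [Finset.mem_image] at hy
      obtain ⟨c, hc, rfl⟩ := hy
      rw [Finset.mem_filter] at hc
      have h2 := hc.2
      rw [Polynomial.Separable, isCoprime_iff_aeval_ne_zero_of_isAlgClosed (ZMod p) L] at h2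
      push Not at h2
      obtain ⟨ξ, h3, h4⟩ := h2
      rw [Finset.mem_image]
      refine ⟨ξ, ?_, ?_⟩
      · rw [hR, Multiset.mem_toFinset, mem_roots', IsRoot.def, eval_map_algebraMap]
        refine ⟨(Polynomial.map_ne_zero_iff (algebraMap (ZMod p) L).injective).2 hD, ?_⟩
        rw [derivative_add, derivative_C, add_zero] at h4
        exact h4
      · rw [map_add, aeval_C] at h3
        exact neg_eq_of_add_eq_zero_right h3
    calc _ = ((univ.filter fun c : ZMod p => ¬ (H r + C c).Separable).image (algebraMap (ZMod p) L)).card :=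
          (Finset.card_image_of_injective _ (algebraMap (ZMod p) L).injective).symm
      _ ≤ (R.image (fun ξ => - aeval ξ (H r))).card := Finset.card_le_card h1
      _ ≤ R.card := Finset.card_image_le
      _ ≤ ((derivative (H r)).map (algebraMap (ZMod p) L)).roots.card := Multiset.toFinset_card_le _
      _ ≤ ((derivative (H r)).map (algebraMap (ZMod p) L)).natDegree := card_roots' _
      _ = (derivative (H r)).natDegree := natDegree_map _
      _ ≤ (H r).natDegree - 1 := natDegree_derivative_le _
      _ ≤ G.natDegree := by rw [(hH r).2]; omega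
  have h5 : (univ.filter fun r : Option J → ZMod p => ¬ (gm G p r).Separable).card ≤
      G.natDegree * Fintype.card (J → ZMod p) := by
    have h6 : (univ.filter fun r : Option J → ZMod p => ¬ (gm G p r).Separable) ⊆
        (univ : Finset (J → ZMod p)).biUnion fun r' =>
          (univ.filter fun c : ZMod p => ¬ (H r' + C c).Separable).image (fun c (o : Option J) => o.elim c r') := by
      intro r hr
      rw [Finset.mem_filter] at hr
      rw [Finset.mem_biUnion]
      refine ⟨fun j => r (some j), Finset.mem_univ _, ?_⟩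
      rw [Finset.mem_image]
      refine ⟨r none, ?_, ?_⟩
      · rw [Finset.mem_filter]
        exact ⟨Finset.mem_univ _, hr.2⟩
      · funext o
        cases o <;> rfl
    refine (Finset.card_le_card h6).trans ?_
    refine (Finset.card_biUnion_le_card_mul _ _ G.natDegree fun r _ => ?_).trans ?_
    · exact Finset.card_image_le.trans (key r)
    · rw [Finset.card_univ, mul_comm]
  have h7 : ((univ.filter fun r : Option J → ZMod p => ¬ (gm G p r).Separable).card : ℝ) ≤
      ((G.natDegree * Fintype.card (J → ZMod p) : ℕ) : ℝ) := by exact_mod_cast h5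
  refine h7.trans (le_of_eq ?_)
  rw [Fintype.card_fun, ZMod.card]
  push_cast
  rfl

/-- the power sums for the base change of the Euler product with the power sums `a` -/
noncomputable def TB (a : ℕ → ℕ → ℝ) (G : (MvPolynomial J ℤ)[X]) (p k : ℕ) (r : Option J → ZMod p) : ℝ :=
  a p k * ((rc p k (gm G p r) : ℝ) - 1)

/-- the family of Euler products -/
theorem powB {w : ℕ} {A : ℝ} (hA : 0 ≤ A) (a : ℕ → ℕ → ℝ)
    (ha : ∀ p : ℕ, p.Prime → ∀ k : ℕ, 1 ≤ k → |a p k| ≤ A * (p : ℝ) ^ ((k : ℝ) * ((w : ℝ) / 2))) :
    Pow (1 + A * G.natDegree + G.natDegree) w (G.natDegree + 1) (TB a G) (fun p r => ¬ (gm G p r).Separable) where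
  D1 := by
    have : (0 : ℝ) ≤ A * G.natDegree + G.natDegree := by positivity
    linarith
  bdk := by
    intro p hp _ k hk r _
    have h1 := rc_le p k (gm G p r) (gm_monic hG hd p r).1.ne_zero
    rw [(gm_monic hG hd p r).2] at h1
    have h2 : |((rc p k (gm G p r) : ℝ) - 1)| ≤ G.natDegree := by
      have h3 : (rc p k (gm G p r) : ℝ) ≤ G.natDegree := by exact_mod_cast h1
      have h4 : (1 : ℝ) ≤ G.natDegree := by exact_mod_cast hd
      have h5 : (0 : ℝ) ≤ (rc p k (gm G p r) : ℝ) := Nat.cast_nonneg _
      rw [abs_le]; constructor <;> linarith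
    unfold TB
    rw [abs_mul]
    have h6 := ha p hp.out k hk
    have h7 : (0 : ℝ) ≤ (p : ℝ) ^ ((k : ℝ) * ((w : ℝ) / 2)) := by positivity
    calc _ ≤ (A * (p : ℝ) ^ ((k : ℝ) * ((w : ℝ) / 2))) * G.natDegree := by gcongr
      _ = (A * G.natDegree) * (p : ℝ) ^ ((k : ℝ) * ((w : ℝ) / 2)) := by ring
      _ ≤ _ := by
        refine mul_le_mul_of_nonneg_right ?_ h7
        have : (0 : ℝ) ≤ G.natDegree := Nat.cast_nonneg _
        linarith
  bd1 := by
    intro p hp _ r
    have h1 := rc_le p 1 (gm G p r) (gm_monic hG hd p r).1.ne_zero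
    rw [(gm_monic hG hd p r).2] at h1
    have h2 : |((rc p 1 (gm G p r) : ℝ) - 1)| ≤ G.natDegree := by
      have h3 : (rc p 1 (gm G p r) : ℝ) ≤ G.natDegree := by exact_mod_cast h1
      have h4 : (1 : ℝ) ≤ G.natDegree := by exact_mod_cast hd
      have h5 : (0 : ℝ) ≤ (rc p 1 (gm G p r) : ℝ) := Nat.cast_nonneg _
      rw [abs_le]; constructor <;> linarith
    unfold TB
    rw [abs_mul]
    have h6 := ha p hp.out 1 le_rfl
    rw [Nat.cast_one, one_mul] at h6
    have h7 : (0 : ℝ) ≤ (p : ℝ) ^ ((w : ℝ) / 2) := by positivity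
    calc _ ≤ (A * (p : ℝ) ^ ((w : ℝ) / 2)) * G.natDegree := by gcongr
      _ = (A * G.natDegree) * (p : ℝ) ^ ((w : ℝ) / 2) := by ring
      _ ≤ _ := by
        refine mul_le_mul_of_nonneg_right ?_ h7
        have : (0 : ℝ) ≤ G.natDegree := Nat.cast_nonneg _
        linarith
  mean := by
    intro p hp _
    have h1 : EM p (TB a G p 1) = 0 := by
      unfold EM TB
      rw [← Finset.mul_sum, Finset.sum_sub_distrib, sum_rc hG hd p]
      rw [Finset.sum_const, Finset.card_univ, Fintype.card_fun, ZMod.card, nsmul_eq_mul]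
      push_cast
      ring
    rw [h1, abs_zero]
    positivity
  bad := by
    intro p hp hpd
    have h1 := sum_bad hG hd p (by omega)
    have hp0 : (0 : ℝ) < p := by exact_mod_cast hp.out.pos
    unfold EM
    rw [Fintype.card_option, pow_succ]
    refine le_trans (b := (G.natDegree : ℝ) / p) ?_ ?_
    · rw [div_le_div_iff₀ (by positivity) hp0]
      refine le_trans (mul_le_mul_of_nonneg_right (le_trans (le_of_eq ?_) h1) hp0.le) (le_of_eq ?_)
      · refine Finset.sum_congr rfl fun r _ => ?_
        by_cases h : (gm G p r).Separable <;> simp [h]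
      · ring
    · gcongr
      have : (0 : ℝ) ≤ A * G.natDegree := by positivity
      linarith

end

end Pool.Agent.N666.BC
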